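import Pool.Agent.K3h14.FD.Stm

/-!
# Domination of all powers
-/

set_option autoImplicit false
set_option linter.unusedSectionVars false
set_option linter.unusedSimpArgs false
set_option backward.isDefEq.respectTransparency false
set_option backward.defeqAttrib.useBackward true

open CategoryTheory Limits MonoidalCategory
open Pool.Agent.Y112.SR Pool.Agent.Y112.KD Pool.Agent.Y112.SC Pool.Agent.K3h63.CC
open Pool.Agent.K3h14.FD

namespace Pool.Agent.K3h90.FD

universe v u w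

open Functor.LaxMonoidal Functor.OplaxMonoidal

section

variable {C : Type u} [Category.{v} C] [Preadditive C] [MonoidalCategory C] [SymmetricCategory C]
  {K : Type w} [Field K] {R : SuperRealisation C K} {L : Subfield K}

/-- The operator `x ⊗ 1_B`. -/
noncomputable def wr {X Y : C} (x : R.H.obj X ⟶ R.H.obj Y) (B : C) :
    R.H.obj (X ⊗ B) ⟶ R.H.obj (Y ⊗ B) :=
  δ R.H X B ≫ (x ▷ R.H.obj B) ≫ μ R.H Y B

lemma wr_comp {X Y Z : C} (x : R.H.obj X ⟶ R.H.obj Y) (y : R.H.obj Y ⟶ R.H.obj Z) (B : C) :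
    wr (x ≫ y) B = wr x B ≫ wr y B := by
  simp only [wr, Category.assoc, Functor.Monoidal.μ_δ_assoc, comp_whiskerRight]

lemma wr_one (X B : C) : wr (𝟙 (R.H.obj X)) B = 𝟙 _ := by
  simp [wr]

lemma wr_map {X Y : C} (f : X ⟶ Y) (B : C) : wr (R.H.map f) B = R.H.map (f ▷ B) := by
  rw [wr, Functor.Monoidal.map_whiskerRight]

lemma wr_add {X Y : C} (x y : R.H.obj X ⟶ R.H.obj Y) (B : C) : wr (x + y) B = wr x B + wr y B := by
  simp only [wr, MonoidalPreadditive.add_whiskerRight, Preadditive.add_comp, Preadditive.comp_add]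

lemma wr_smul {X Y : C} (k : K) (x : R.H.obj X ⟶ R.H.obj Y) (B : C) :
    wr (k • x) B = k • wr x B := by
  simp only [wr, MonoidalLinear.smul_whiskerRight, Linear.smul_comp, Linear.comp_smul]

lemma wr_zero (X Y B : C) : wr (0 : R.H.obj X ⟶ R.H.obj Y) B = 0 := by
  have := wr_smul (0 : K) (0 : R.H.obj X ⟶ R.H.obj Y) B
  simpa using this

lemma wr_neg {X Y : C} (x : R.H.obj X ⟶ R.H.obj Y) (B : C) : wr (-x) B = -wr x B := by
  have := wr_smul (-1 : K) x B
  simpa using this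

lemma wr_sum {X Y : C} {ι : Type*} (s : Finset ι) (x : ι → (R.H.obj X ⟶ R.H.obj Y)) (B : C) :
    wr (∑ i ∈ s, x i) B = ∑ i ∈ s, wr (x i) B := by
  classical
  induction s using Finset.induction_on with
  | empty => rw [Finset.sum_empty, Finset.sum_empty, wr_zero]
  | insert i s hi ih => rw [Finset.sum_insert hi, Finset.sum_insert hi, wr_add, ih]

lemma alg_wr {X Y : C} {x : R.H.obj X ⟶ R.H.obj Y} (hx : Algebraic R L x) (B : C) :
    Algebraic R L (wr x B) := by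
  unfold Algebraic at hx
  induction hx using AddSubgroup.closure_induction with
  | mem z hz =>
    obtain ⟨c, hc, f, rfl⟩ := hz
    rw [wr_smul, wr_map]
    exact (Algebraic.map _).smul hc
  | zero => rw [wr_zero]; exact Algebraic.zero _ _
  | add u v _ _ hu hv => rw [wr_add]; exact hu.add hv
  | neg u _ hu => rw [wr_neg]; exact hu.neg

variable (G : Grading R) {𝒟 : Set C}

/-- Domination with any finite index type. -/
lemma dom_of_fintype {ι : Type*} [Fintype ι] {X : C} (D T : ι → C)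
    (φ : ∀ i, R.H.obj X ⟶ R.H.obj (D i ⊗ T i)) (ψ : ∀ i, R.H.obj (D i ⊗ T i) ⟶ R.H.obj X)
    (hD : ∀ i, D i ∈ 𝒟) (hT : ∀ i, G.KunnethC ⊤ (T i)) (hφ : ∀ i, Algebraic R ⊤ (φ i))
    (hψ : ∀ i, Algebraic R ⊤ (ψ i)) (h : ∑ i, φ i ≫ ψ i = 𝟙 _) : Dom G 𝒟 X := by
  classical
  let e := Fintype.equivFin ι
  refine ⟨Fintype.card ι, fun j => D (e.symm j), fun j => T (e.symm j), fun j => φ (e.symm j),
    fun j => ψ (e.symm j), fun j => hD _, fun j => hT _, fun j => hφ _, fun j => hψ _, ?_⟩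
  rw [← h]
  exact Equiv.sum_comp e.symm fun i => φ i ≫ ψ i

/-- Domination is transitive. -/
lemma dom_trans {ι : Type*} [Fintype ι] {X : C} (Y : ι → C)
    (φ : ∀ i, R.H.obj X ⟶ R.H.obj (Y i)) (ψ : ∀ i, R.H.obj (Y i) ⟶ R.H.obj X)
    (hφ : ∀ i, Algebraic R ⊤ (φ i)) (hψ : ∀ i, Algebraic R ⊤ (ψ i)) (h : ∑ i, φ i ≫ ψ i = 𝟙 _)
    (hY : ∀ i, Dom G 𝒟 (Y i)) : Dom G 𝒟 X := by
  choose n D T φ' ψ' hD hT hφ' hψ' hs using hY
  refine dom_of_fintype G (ι := Σ i, Fin (n i)) (fun p => D p.1 p.2) (fun p => T p.1 p.2)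
    (fun p => φ p.1 ≫ φ' p.1 p.2) (fun p => ψ' p.1 p.2 ≫ ψ p.1) (fun p => hD _ _)
    (fun p => hT _ _) (fun p => (hφ _).comp (hφ' _ _)) (fun p => (hψ' _ _).comp (hψ _)) ?_
  rw [Fintype.sum_sigma, ← h]
  refine Finset.sum_congr rfl fun i _ => ?_
  have h1 : ∀ j, (φ i ≫ φ' i j) ≫ ψ' i j ≫ ψ i = φ i ≫ (φ' i j ≫ ψ' i j) ≫ ψ i := fun j => by
    simp only [Category.assoc]
  simp only [h1]
  rw [← Preadditive.comp_sum, ← Preadditive.sum_comp, hs i, Category.id_comp]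

lemma dom_iso {X Y : C} (e : X ≅ Y) (h : Dom G 𝒟 Y) : Dom G 𝒟 X := by
  refine dom_trans G (ι := Unit) (fun _ => Y) (fun _ => R.H.map e.hom) (fun _ => R.H.map e.inv)
    (fun _ => Algebraic.map _) (fun _ => Algebraic.map _) ?_ fun _ => h
  rw [Fintype.sum_unique, ← Functor.map_comp, e.hom_inv_id, CategoryTheory.Functor.map_id]

lemma dom_self {D T : C} (hD : D ∈ 𝒟) (hT : G.KunnethC ⊤ T) : Dom G 𝒟 (D ⊗ T) :=
  dom_of_fintype G (ι := Unit) (fun _ => D) (fun _ => T) (fun _ => 𝟙 _) (fun _ => 𝟙 _)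
    (fun _ => hD) (fun _ => hT) (fun _ => Algebraic.one _) (fun _ => Algebraic.one _) (by
      rw [Fintype.sum_unique, Category.comp_id])

end

section

variable {C : Type u} [Category.{v} C] [Preadditive C] [Linear ℚ C] [MonoidalCategory C]
  [MonoidalPreadditive C] [MonoidalLinear ℚ C] [SymmetricCategory C] [RightRigidCategory C]
  {K : Type w} [Field K] [CharZero K] {R : SuperRealisation C K} (G : Grading R) {𝒟 : Set C}

lemma dom_tensor {X T : C} (hX : Dom G 𝒟 X) (hT : G.KunnethC ⊤ T) : Dom G 𝒟 (X ⊗ T) := by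
  obtain ⟨n, D, T', φ, ψ, hD, hT', hφ, hψ, hs⟩ := hX
  refine dom_trans G (ι := Fin n) (fun i => (D i ⊗ T' i) ⊗ T) (fun i => wr (φ i) T)
    (fun i => wr (ψ i) T) (fun i => alg_wr (hφ i) T) (fun i => alg_wr (hψ i) T) ?_ fun i => ?_
  · simp only [← wr_comp]
    rw [← wr_sum, hs, wr_one]
  · exact dom_iso G (α_ (D i) (T' i) T) (dom_self G (hD i) (C_tensor G (hT' i) hT))

end

/-- If `A ⊗ B ^ n` is dominated by the `A ⊗ B ^ j`, `j < n`, then all `A ⊗ B ^ m`, `m ≥ n`, are. -/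
theorem t_DOM : S_DOM.{u, v, w} := by
  intro C _ _ _ _ _ _ _ _ K _ _ R G A B n hn h m hm
  induction m, hm using Nat.le_induction with
  | base => exact h
  | succ m hm ih =>
    obtain ⟨l, D, T, φ, ψ, hD, hT, hφ, hψ, hs⟩ := ih
    refine dom_trans G (ι := Fin l) (fun i => (D i ⊗ T i) ⊗ B) (fun i => wr (φ i) B)
      (fun i => wr (ψ i) B) (fun i => alg_wr (hφ i) B) (fun i => alg_wr (hψ i) B) ?_ fun i => ?_
    · simp only [← wr_comp]
      rw [← wr_sum, hs, wr_one]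
      rfl
    · obtain ⟨j, hj, hDj⟩ := hD i
      have e : (D i ⊗ T i) ⊗ B ≅ prodPow A B (j + 1) ⊗ T i :=
        α_ (D i) (T i) B ≪≫ (whiskerLeftIso (D i) (β_ (T i) B)) ≪≫ (α_ (D i) B (T i)).symm ≪≫
          whiskerRightIso (whiskerRightIso (eqToIso hDj) B) (T i)
      refine dom_iso G e ?_
      rcases Nat.lt_or_ge (j + 1) n with h1 | h1
      · exact dom_self G ⟨j + 1, h1, rfl⟩ (hT i)
      · obtain rfl : n = j + 1 := by omega
        exact dom_tensor G h (hT i)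

end Pool.Agent.K3h90.FD
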